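import Pool.Agent.Helper62.PM.St

/-!
# Project PM, module A : rotations in a plane
-/

set_option autoImplicit false

open MeasureTheory Metric Set Filter Topology
open scoped RealInnerProductSpace ContDiff

namespace Pool.Agent.Helper72.PM

open Pool.Agent.Helper62.PM
open Pool.Agent.Helper62.Mink

private theorem in_e {n : ℕ} {e v : E n} (hee : (inner ℝ e e : ℝ) = 1)
    (hev : (inner ℝ e v : ℝ) = 0) (t : ℝ) (x : E n) :
    (inner ℝ e (rp e v t x) : ℝ) = Real.cos t * inner ℝ e x - Real.sin t * inner ℝ v x := by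
  unfold rp
  simp only [inner_add_right, inner_smul_right, hee, hev]
  ring

private theorem in_v {n : ℕ} {e v : E n} (hvv : (inner ℝ v v : ℝ) = 1)
    (hve : (inner ℝ v e : ℝ) = 0) (t : ℝ) (x : E n) :
    (inner ℝ v (rp e v t x) : ℝ) = Real.sin t * inner ℝ e x + Real.cos t * inner ℝ v x := by
  unfold rp
  simp only [inner_add_right, inner_smul_right, hvv, hve]
  ring

private theorem rp_rp {n : ℕ} {e v : E n} (hee : (inner ℝ e e : ℝ) = 1)
    (hvv : (inner ℝ v v : ℝ) = 1) (hev : (inner ℝ e v : ℝ) = 0) (hve : (inner ℝ v e : ℝ) = 0)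
    (s t : ℝ) (x : E n) : rp e v s (rp e v t x) = rp e v (s + t) x := by
  have h1 := in_e hee hev t x
  have h2 := in_v hvv hve t x
  show rp e v t x + ((Real.cos s - 1) * inner ℝ e (rp e v t x) -
      Real.sin s * inner ℝ v (rp e v t x)) • e +
    (Real.sin s * inner ℝ e (rp e v t x) + (Real.cos s - 1) * inner ℝ v (rp e v t x)) • v = _
  rw [h1, h2]
  unfold rp
  rw [Real.cos_add, Real.sin_add]
  module

private theorem rp_zero {n : ℕ} (e v x : E n) : rp e v 0 x = x := by
  unfold rp
  simp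

private theorem rp_norm {n : ℕ} {e v : E n} (hee : (inner ℝ e e : ℝ) = 1)
    (hvv : (inner ℝ v v : ℝ) = 1) (hev : (inner ℝ e v : ℝ) = 0) (hve : (inner ℝ v e : ℝ) = 0)
    (t : ℝ) (x : E n) : ‖rp e v t x‖ = ‖x‖ := by
  have h : (inner ℝ (rp e v t x) (rp e v t x) : ℝ) = inner ℝ x x := by
    have h1 := in_e hee hev t x
    have h2 := in_v hvv hve t x
    have hx : (inner ℝ x (rp e v t x) : ℝ) = inner ℝ x x +
        ((Real.cos t - 1) * inner ℝ e x - Real.sin t * inner ℝ v x) * inner ℝ e x +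
        (Real.sin t * inner ℝ e x + (Real.cos t - 1) * inner ℝ v x) * inner ℝ v x := by
      unfold rp
      simp only [inner_add_right, inner_smul_right]
      rw [real_inner_comm e x, real_inner_comm v x]
    have hsc := Real.sin_sq_add_cos_sq t
    generalize hy : rp e v t x = y at h1 h2 hx ⊢
    have hy' : (inner ℝ y y : ℝ) = inner ℝ x y +
        ((Real.cos t - 1) * inner ℝ e x - Real.sin t * inner ℝ v x) * inner ℝ e y +
        (Real.sin t * inner ℝ e x + (Real.cos t - 1) * inner ℝ v x) * inner ℝ v y := by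
      conv_lhs => rw [← hy]
      unfold rp
      simp only [inner_add_left, inner_smul_left, conj_trivial]
      rw [← hy]
      rfl
    rw [hy', h1, h2, hx]
    linear_combination ((inner ℝ e x : ℝ) ^ 2 + (inner ℝ v x : ℝ) ^ 2) * hsc
  rw [real_inner_self_eq_norm_sq, real_inner_self_eq_norm_sq] at h
  exact (pow_left_inj₀ (norm_nonneg _) (norm_nonneg _) (by norm_num)).1 h

/-- the linear map -/
private noncomputable def L {n : ℕ} (e v : E n) (t : ℝ) : E n →ₗ[ℝ] E n where
  toFun := rp e v t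
  map_add' x y := by
    unfold rp
    simp only [inner_add_right]
    module
  map_smul' c x := by
    unfold rp
    simp only [inner_smul_right, RingHom.id_apply]
    module

private theorem det_sq {n : ℕ} (θ : E n ≃ₗᵢ[ℝ] E n) :
    LinearMap.det (θ.toLinearEquiv.toLinearMap : E n →ₗ[ℝ] E n) ^ 2 = 1 := by
  have b := EuclideanSpace.basisFun (Fin n) ℝ
  have h1 := b.toBasis.det_comp (θ.toLinearEquiv.toLinearMap : E n →ₗ[ℝ] E n) b.toBasis
  rw [Module.Basis.det_self, mul_one] at h1
  have h2 := b.det_to_matrix_orthonormalBasis_real (b.map θ)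
  have h3 : b.toBasis.det ((b.map θ : OrthonormalBasis (Fin n) ℝ (E n)) : Fin n → E n) =
      LinearMap.det (θ.toLinearEquiv.toLinearMap : E n →ₗ[ℝ] E n) := by
    rw [← h1]
    congr 1
  rw [h3] at h2
  rcases h2 with h | h <;> rw [h] <;> norm_num

theorem hA : StA := by
  intro n e v hON
  obtain ⟨he, hv, hev⟩ := hON
  simp only at he hv hev
  have hee : (inner ℝ e e : ℝ) = 1 := by rw [real_inner_self_eq_norm_sq, he]; norm_num
  have hvv : (inner ℝ v v : ℝ) = 1 := by rw [real_inner_self_eq_norm_sq, hv]; norm_num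
  have hve : (inner ℝ v e : ℝ) = 0 := by rw [real_inner_comm]; exact hev
  have hex : ∀ t : ℝ, ∃ θ : E n ≃ₗᵢ[ℝ] E n, ∀ x, θ x = rp e v t x := by
    intro t
    refine ⟨⟨LinearEquiv.ofLinearMap (L e v t) (L e v (-t)) ?_ ?_, ?_⟩, ?_⟩
    · apply LinearMap.ext
      intro x
      show rp e v t (rp e v (-t) x) = x
      rw [rp_rp hee hvv hev hve, add_neg_cancel, rp_zero]
    · apply LinearMap.ext
      intro x
      show rp e v (-t) (rp e v t x) = x
      rw [rp_rp hee hvv hev hve, neg_add_cancel, rp_zero]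
    · intro x
      exact rp_norm hee hvv hev hve t x
    · intro x
      rfl
  refine ⟨fun t => ?_, rp_rp hee hvv hev hve, rp_zero e v, fun t => ?_⟩
  · obtain ⟨θ, hθ⟩ := hex t
    obtain ⟨η, hη⟩ := hex (t / 2)
    refine ⟨θ, ?_, hθ⟩
    unfold IsRot
    have h : (θ.toLinearEquiv.toLinearMap : E n →ₗ[ℝ] E n) =
        (η.toLinearEquiv.toLinearMap : E n →ₗ[ℝ] E n) ∘ₗ
          (η.toLinearEquiv.toLinearMap : E n →ₗ[ℝ] E n) := by
      apply LinearMap.ext
      intro x
      show θ x = η (η x)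
      rw [hη, hη, hθ, rp_rp hee hvv hev hve, add_halves]
    rw [h, LinearMap.det_comp, ← sq]
    exact det_sq η
  · unfold rp
    rw [hee, hve]
    module

end Pool.Agent.Helper72.PM
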