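import Pool.Agent.Helper35.PQF.St

set_option autoImplicit false

/-! Project PM (helper35), MP_d112a4_gt: module RA6 (Fatou and monotone convergence). -/

open Filter Topology Matrix Set MeasureTheory
open scoped ENNReal ComplexOrder

namespace Pool.Agent.Helper72.PM

open Pool.Agent.Helper35.PM

theorem pt_mem {y θ : ℝ} (hy : 0 < y) : pt (-y) θ ∈ Metric.ball (0 : ℂ) 1 := by
  unfold pt
  rw [mem_ball_zero_iff, Complex.norm_exp]
  have h1 : ((((-y : ℝ) : ℂ)) + (θ : ℂ) * Complex.I).re = -y := by simp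
  rw [h1, Real.exp_lt_one_iff]
  linarith

theorem mul_liminf_eq (c : ℝ≥0∞) (hc : c ≠ ∞) (a : ℕ → ℝ≥0∞) :
    c * liminf a atTop = liminf (fun n => c * a n) atTop := by
  have h1 : Monotone (fun z : ℝ≥0∞ => c * z) := fun a b hab => by
    show c * a ≤ c * b
    gcongr
  exact h1.map_liminf_of_continuousAt (F := atTop) a (ENNReal.continuous_const_mul hc).continuousAt

/-- one strip -/
theorem strip (F : ℕ → ℝ → ℝ → ℝ≥0∞) (hF : ∀ n, Measurable (Function.uncurry (F n))) (S T : Set ℝ)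
    (K : ℝ≥0∞)
    (hK : ∀ᶠ n : ℕ in atTop, ∫⁻ θ in T, ∫⁻ x in S, ENNReal.ofReal (-x) * F n θ x ≤ K) :
    ∫⁻ θ in T, ∫⁻ x in S, ENNReal.ofReal (-x) * liminf (fun n => F n θ x) atTop ≤ K := by
  have hw : ∀ n, Measurable (Function.uncurry fun θ x : ℝ => ENNReal.ofReal (-x) * F n θ x) := by
    intro n
    exact ((ENNReal.measurable_ofReal.comp (measurable_snd.neg)).mul (hF n))
  have h1 : ∀ θ : ℝ, ∫⁻ x in S, ENNReal.ofReal (-x) * liminf (fun n => F n θ x) atTop ≤
      liminf (fun n => ∫⁻ x in S, ENNReal.ofReal (-x) * F n θ x) atTop := by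
    intro θ
    calc ∫⁻ x in S, ENNReal.ofReal (-x) * liminf (fun n => F n θ x) atTop
        = ∫⁻ x in S, liminf (fun n => ENNReal.ofReal (-x) * F n θ x) atTop :=
          lintegral_congr fun x => mul_liminf_eq _ ENNReal.ofReal_ne_top _
      _ ≤ _ := lintegral_liminf_le fun n => (hw n).comp measurable_prodMk_left
  calc ∫⁻ θ in T, ∫⁻ x in S, ENNReal.ofReal (-x) * liminf (fun n => F n θ x) atTop
      ≤ ∫⁻ θ in T, liminf (fun n => ∫⁻ x in S, ENNReal.ofReal (-x) * F n θ x) atTop :=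
        lintegral_mono h1
    _ ≤ liminf (fun n => ∫⁻ θ in T, ∫⁻ x in S, ENNReal.ofReal (-x) * F n θ x) atTop :=
        lintegral_liminf_le fun n => Measurable.lintegral_prod_right' (hw n)
    _ ≤ limsup (fun n => ∫⁻ θ in T, ∫⁻ x in S, ENNReal.ofReal (-x) * F n θ x) atTop :=
        liminf_le_limsup
    _ ≤ K := limsup_le_of_le (h := hK)

theorem ra6 (ra2 : St_RA2) (ra6a : St_RA6A) (ra6b : St_RA6B) : St_RA6 := by
  intro u j hP
  obtain ⟨hm, hb⟩ := ra6a u j hP
  have hmq : Measurable (Function.uncurry fun θ x : ℝ => liminf (fun n => Qn u n θ x) atTop) := by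
    have := Measurable.liminf hm
    exact this
  refine ⟨fun θ x => liminf (fun n => Qn u n θ x) atTop, hmq, hb, ?_⟩
  intro y hy
  have hcont : Continuous (fun θ : ℝ => u (pt (-y) θ)) := by
    refine (ra2 u j hP).comp_continuous ?_ fun θ => pt_mem hy
    unfold pt
    fun_prop
  have hR : ENNReal.ofReal (2 * ∫ θ in (0 : ℝ)..(2 * Real.pi), (u (pt (-y) θ) - 1 / 2)) =
      ∫⁻ θ in Ioo 0 (2 * Real.pi), ENNReal.ofReal (2 * u (pt (-y) θ) - 1) := by
    have e1 : (2 * ∫ θ in (0 : ℝ)..(2 * Real.pi), (u (pt (-y) θ) - 1 / 2)) =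
        ∫ θ in Ioo 0 (2 * Real.pi), (2 * u (pt (-y) θ) - 1) := by
      rw [← intervalIntegral.integral_const_mul, intervalIntegral.integral_of_le (by positivity),
        integral_Ioc_eq_integral_Ioo]
      congr 1
      funext θ
      ring
    rw [e1]
    apply ofReal_integral_eq_lintegral_ofReal
    · have h2 : Continuous (fun θ : ℝ => 2 * u (pt (-y) θ) - 1) :=
        (continuous_const.mul hcont).sub continuous_const
      exact (h2.continuousOn.integrableOn_Icc (a := 0) (b := 2 * Real.pi)).mono_set Ioo_subset_Icc_self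
    · refine Eventually.of_forall fun θ => ?_
      have := hP.1 _ (pt_mem (θ := θ) hy)
      show (0 : ℝ) ≤ 2 * u (pt (-y) θ) - 1
      linarith
  have hstrip : ∀ y₁ : ℝ, 0 < y₁ → y₁ < y →
      ∫⁻ θ in Ioo 0 (2 * Real.pi), ∫⁻ x in Ioo (-y) (-y₁),
        ENNReal.ofReal (-x) * liminf (fun n => Qn u n θ x) atTop ≤
      ∫⁻ θ in Ioo 0 (2 * Real.pi), ENNReal.ofReal (2 * u (pt (-y) θ) - 1) := by
    intro y₁ h1 h2
    rw [← hR]
    apply ENNReal.le_of_forall_pos_le_add
    intro ε hε _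
    have h3 := strip (fun n θ x => Qn u n θ x) hm (Ioo (-y) (-y₁)) (Ioo 0 (2 * Real.pi)) _
      (ra6b u j hP y y₁ ε h1 h2 (NNReal.coe_pos.2 hε))
    refine h3.trans (ENNReal.ofReal_add_le.trans ?_)
    rw [ENNReal.ofReal_coe_nnreal]
  have hsets : Ioo (-y) 0 = ⋃ k : ℕ, Ioo (-y) (-(y / ((k : ℝ) + 2))) := by
    ext x
    simp only [mem_Ioo, mem_iUnion]
    constructor
    · rintro ⟨h1, h2⟩
      obtain ⟨k, hk⟩ := exists_nat_gt (y / (-x))
      refine ⟨k, h1, ?_⟩
      rw [div_lt_iff₀ (by linarith)] at hk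
      have h4 : y / ((k : ℝ) + 2) < -x := by
        rw [div_lt_iff₀ (by positivity)]
        nlinarith
      linarith
    · rintro ⟨k, h1, h2⟩
      have h3 : 0 < y / ((k : ℝ) + 2) := by positivity
      exact ⟨h1, by linarith⟩
  have hmono : Monotone (fun k : ℕ => Ioo (-y) (-(y / ((k : ℝ) + 2)))) := by
    intro k l hkl
    apply Ioo_subset_Ioo le_rfl
    have h1 : (k : ℝ) ≤ l := by exact_mod_cast hkl
    have h2 : y / ((l : ℝ) + 2) ≤ y / ((k : ℝ) + 2) := by
      apply div_le_div_of_nonneg_left hy.le (by positivity)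
      linarith
    linarith
  have hint : ∀ θ : ℝ, ∫⁻ x in Ioo (-y) 0, ENNReal.ofReal (-x) * liminf (fun n => Qn u n θ x) atTop =
      ⨆ k : ℕ, ∫⁻ x in Ioo (-y) (-(y / ((k : ℝ) + 2))),
        ENNReal.ofReal (-x) * liminf (fun n => Qn u n θ x) atTop := by
    intro θ
    rw [hsets]
    exact setLIntegral_iUnion_of_directed _ hmono.directed_le
  calc ∫⁻ θ in Ioo 0 (2 * Real.pi), ∫⁻ x in Ioo (-y) 0,
        ENNReal.ofReal (-x) * liminf (fun n => Qn u n θ x) atTop
      = ∫⁻ θ in Ioo 0 (2 * Real.pi), ⨆ k : ℕ, ∫⁻ x in Ioo (-y) (-(y / ((k : ℝ) + 2))),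
          ENNReal.ofReal (-x) * liminf (fun n => Qn u n θ x) atTop := lintegral_congr hint
    _ = ⨆ k : ℕ, ∫⁻ θ in Ioo 0 (2 * Real.pi), ∫⁻ x in Ioo (-y) (-(y / ((k : ℝ) + 2))),
          ENNReal.ofReal (-x) * liminf (fun n => Qn u n θ x) atTop := by
        apply lintegral_iSup
        · intro k
          refine Measurable.lintegral_prod_right'
            (f := fun z : ℝ × ℝ => ENNReal.ofReal (-z.2) * liminf (fun n => Qn u n z.1 z.2) atTop) ?_
          exact (ENNReal.measurable_ofReal.comp (measurable_snd.neg)).mul hmq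
        · intro k l hkl θ
          exact lintegral_mono_set (hmono hkl)
    _ ≤ _ := by
        refine iSup_le fun k => hstrip _ (by positivity) ?_
        rw [div_lt_iff₀ (by positivity)]
        have : (0 : ℝ) ≤ k := Nat.cast_nonneg k
        nlinarith

end Pool.Agent.Helper72.PM
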